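import Pool.Agent.H64.KR.Fin

set_option autoImplicit false

/-!
# MP_433f59_an: `β(λ) = 3 - 1/λ` for `5/14 ≤ λ ≤ 2/5`

The Koebe function has the maximal order of growth of `I_λ(r, f')` among all univalent functions for all
`5/14 ≤ λ ≤ 2/5` (Feng and MacGregor: `λ ≥ 2/5`); and for all `0 < λ ≤ 2/5`,
`β(λ) ≤ max (5 λ / 9) (3 - 1/λ)`.

The proof. Let `F` be in the class `S`, `s = λ/2 = p/N` rational, `s ≤ 1/4`, and
`((F(z) - F(ζ))/(z - ζ))^s = ∑ ν_ab ζ^a z^b` (`ν` symmetric). Let `β_k = (-s)_k / k!` and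
`T_n^m = ∑_b ν_(m-b, b) β_(b-n)` for all integers `n`.

1. (POL, IG, AREA) For every `j ≥ 1` the coefficient of `ζ^j` in `(F(z) - F(ζ))^s` is a polynomial in
   `1/G(v)`, where `G(v)^N = F(v^N) = F(z)`, without constant term; `1/G` is univalent with a simple pole,
   so by the area theorem `∑_(n ≥ 0) (n+s) |T_n^(n+j)|² ≤ ∑_(k ≥ 1) (k-s) |T_(-k)^(j-k)|²`. The weights
   `(j+1)^(-μ)`, `μ = σ - 2 s`, are used (WARG).
2. The symmetry of `ν` gives an exact formula for `T_(-k)^m` in terms of `T_n^m`, `1 ≤ n ≤ m` (the identity of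
   MP_16b0ee_an.WholeClassRange). The terms `n < m` are estimated by a Hilbert-Schmidt sum, whose limit
   is less than `1` for `σ = (20/9) s²`; the term `n = m`, with the coefficient `T_m^m = ν_0m` of
   `(F(z)/z)^s`, is separated and kept (PRG).
3. (FRG, DMG) The area of the image of `G^p` (with multiplicity) and `|F| ≤ (1-|z|)^(-2)` give
   `∑_(m < M) (m+1) |ν_0m|² = O(M^(4s))`.
4. (CORE, GDG, FNG, MNG) Hence the mean of `|F'|^(2s)` is `O((1-r)^(-max((20/9) s², 6s - 1) - ε))`.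
5. (JEN) Real `λ` by approximation by rational ones from above.
-/

namespace Pool.Agent.Results.MP_433f59_an.KoebeRange

open Metric Set Filter Topology

/-- The mean `I_λ(r, g)` of the problem. -/
noncomputable def mean (l r : ℝ) (g : ℂ → ℂ) : ℝ :=
  ((1 / (2 * Real.pi)) * ∫ t in (0 : ℝ)..(2 * Real.pi), ‖g (circleMap 0 r t)‖ ^ l) ^ (1 / l)

/-- `f` is analytic and injective in the unit disc. -/
def Univalent (f : ℂ → ℂ) : Prop := DifferentiableOn ℂ f (ball 0 1) ∧ InjOn f (ball 0 1)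

/-- The order of growth of `I_λ(r, f')` as `r → 1`. -/
noncomputable def order (l : ℝ) (f : ℂ → ℂ) : EReal :=
  limsup (fun r : ℝ => ((Real.log (mean l r (deriv f)) / Real.log (1 / (1 - r)) : ℝ) : EReal))
    (𝓝[<] (1 : ℝ))

/-- `β(λ)`, the supremum over all univalent functions. -/
noncomputable def beta (l : ℝ) : EReal := ⨆ f : {f : ℂ → ℂ // Univalent f}, order l f.1

/-- **Result.** `β(λ) = 3 - 1/λ` for `5/14 ≤ λ ≤ 2/5`, and this is the order of growth of the Koebe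
function `z / (1 - z) ^ 2` (which is univalent). Moreover, for `0 < λ ≤ 2/5`,
`β(λ) ≤ max (5 λ / 9) (3 - 1/λ)`, and every univalent `f` satisfies
`I_λ(r, f') = O((1 - r) ^ (-max (5 λ / 9) (3 - 1/λ) - ε))` for every `ε > 0`
(where the maximum is `3 - 1/λ` for `λ ≥ 5/14`). -/
theorem result :
    (∀ l : ℝ, 5 / 14 ≤ l → l ≤ 2 / 5 → beta l = ((3 - 1 / l : ℝ) : EReal)) ∧
    (Univalent (fun z : ℂ => z / (1 - z) ^ 2) ∧ ∀ l : ℝ, 5 / 14 ≤ l → l ≤ 2 / 5 →
      order l (fun z : ℂ => z / (1 - z) ^ 2) = ((3 - 1 / l : ℝ) : EReal)) ∧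
    (∀ l : ℝ, 0 < l → l ≤ 2 / 5 → beta l ≤ ((max (5 / 9 * l) (3 - 1 / l) : ℝ) : EReal) ∧
      ∀ f : ℂ → ℂ, Univalent f → ∀ ε : ℝ, 0 < ε → ∃ C : ℝ, ∀ r ∈ Ioo (0 : ℝ) 1,
        mean l r (deriv f) ≤ C * (1 - r) ^ (-max (5 / 9 * l) (3 - 1 / l) - ε)) ∧
    (∀ l : ℝ, 5 / 14 ≤ l → l ≤ 2 / 5 → max (5 / 9 * l) (3 - 1 / l) = 3 - 1 / l) := by
  have hub : ∀ l : ℝ, 0 < l → l ≤ 2 / 5 →
      beta l ≤ ((max (5 / 9 * l) (3 - 1 / l) : ℝ) : EReal) := by
    intro l hl hl2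
    unfold beta
    apply iSup_le
    rintro ⟨f, hd, hi⟩
    exact Pool.Agent.H64.KR.ord_le hd hi hl (by linarith)
  refine ⟨fun l h1 h2 => ?_, ⟨⟨Pool.Agent.H64.KR.kb_diff, Pool.Agent.H64.KR.kb_inj⟩,
    fun l h1 h2 => ?_⟩, fun l hl hl2 => ⟨hub l hl hl2, fun f hf ε hε => ?_⟩,
    fun l h1 h2 => Pool.Agent.H64.KR.bl_eq h1 h2⟩
  · have hl : 0 < l := by linarith
    apply le_antisymm
    · have h3 := hub l hl h2
      have h4 : max (5 / 9 * l) (3 - 1 / l) = 3 - 1 / l := Pool.Agent.H64.KR.bl_eq h1 h2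
      rw [h4] at h3
      exact h3
    · unfold beta
      exact le_trans (Pool.Agent.H64.KR.ord_kb hl)
        (le_iSup (fun f : {f : ℂ → ℂ // Univalent f} => order l f.1)
          ⟨Pool.Agent.H64.KR.kb, Pool.Agent.H64.KR.kb_diff, Pool.Agent.H64.KR.kb_inj⟩)
  · have hl : 0 < l := by linarith
    apply le_antisymm
    · have h3 := Pool.Agent.H64.KR.ord_le Pool.Agent.H64.KR.kb_diff Pool.Agent.H64.KR.kb_inj hl
        (by linarith)
      rw [Pool.Agent.H64.KR.bl_eq h1 h2] at h3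
      exact h3
    · exact Pool.Agent.H64.KR.ord_kb hl
  · obtain ⟨C, -, hC⟩ := Pool.Agent.H64.KR.upper hf.1 hf.2 hl (by linarith) hε
    exact ⟨C, hC⟩

end Pool.Agent.Results.MP_433f59_an.KoebeRange
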